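import Mathlib

set_option autoImplicit false

namespace Pool.Agent.Results.MP_52c3fe_co.Counter

open Finset

/-- The Walsh transform. -/
def walsh {m : ℕ} (f : (Fin m → ZMod 2) → ZMod 2) (u : Fin m → ZMod 2) : ℤ :=
  ∑ x, (-1) ^ (f x + u ⬝ᵥ x).val

/-- `f` is bent with dual `d`. -/
def IsBentDual {m : ℕ} (f d : (Fin m → ZMod 2) → ZMod 2) : Prop :=
  ∀ u, walsh f u = 2 ^ (m / 2) * (-1) ^ (d u).val

/-- The incidence matrix of the design `D_{g,h}`. -/
def matM {m : ℕ} (g h : (Fin m → ZMod 2) → ZMod 2) :
    Matrix (Fin m → ZMod 2) (Fin m → ZMod 2) (ZMod 2) :=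
  Matrix.of fun b x => g b + h (x + b) + (g + h) x

/-- The incidence matrix of the translation design of `h`. -/
def matN {m : ℕ} (h : (Fin m → ZMod 2) → ZMod 2) :
    Matrix (Fin m → ZMod 2) (Fin m → ZMod 2) (ZMod 2) :=
  Matrix.of fun x y => h (x + y)

def gT : ℕ := 47759223636507730209801550344371119078934783318887441289834004656231277002752

def hT : ℕ := 69385497699446461834641664843644723019607989204058027857863390818449422548992

def gD : ℕ := 47759223636507730209801550344371119078934783318887441289834004656231277002752

def hD : ℕ := 79816867663689552333299040383152993364935536724951022872298090555727030648832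

def pT : ℕ := 47758914269546354982683078068829456704164423862093743397580034411621752859030

def qs : List ℕ :=
  [47759223636507730209801550344371119078934783318887441289834004656231277002752,
   68033793696972121727077929796829020982209227451978766780764996568133617188864,
   68032865608676033879707082585180312593042885338876679232775281805862829883392,
   47759223628640521692575970234316420338705307528591259281391338991966802477056,
   68033793704840050540481956976688280651790559797988293673042651963683418800128,
   27245821051170367070474528553337970508346817175284009783018295951323385183292,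
   88546579977929106539431818298536382313410039692274057534688796153148479226819,
   88546268186145900947778054154299488212805569041920818666524069556043346527171,
   27245821065442989629857741762530083587557803649173890491679623548157522527171,
   27245509273659856627390114136682453824805639220376733526162689227465852075068,
   77194961727035290851857450419532622885362574061307958571862652196554649898992,
   38598187602343392230312493903102696322691459067786648845859899707675268812784,
   38598187596951485172110232004213481129250191730067050708595601689110269653007,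
   38597127504888586141802865902513244430531215735767417817805114547266607968271,
   23428983316046772093187720042481068795378068199297920684265848797507476673962,
   92362521564425276787851804623537018417432355148942344836397582423407183091114,
   728748926210990570432649475220085303678764371242023930201676081641449878,
   1038098138495364016737085090033462805917350444848253201296094687963551337,
   1038098138495364016737085090037888237680763716974581805974088870902983062,
   68113714302040687375167559637520911664906459291353276282964913362226976456448,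
   47680127997878264433164511978188749590792357409914253828853107840094115462912,
   88308194179372225500338399317937390122687478023922692073848717957765919446678,
   38747371869122413599221724538316567831486641315595085817275159133586077035178,
   40868231325429914260079843066621101659372847842118356063812622811758423876954,
   46317270186501620710342005780229694787761662110400717100004941677183284032460,
   7209442761359364678548591575931215669403987211587519800200117436611318670950,
   69385747134477244070830568331319083505682787933850426093124507461761283191024,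
   74790636272629917215666441548580575989986815028199921821305491138090946577212,
   115340399999154361782865909968646006876230466277320769117301957602824076024410]

def ps : List ℕ :=
  [1, 2, 4, 7, 8, 11, 13, 14,
   16, 19, 21, 22, 25, 26, 28, 31,
   32, 64, 128, 224, 256, 352, 416, 448,
   512, 608, 672, 704, 800, 832, 896, 992,
   1024, 2048, 4096, 7168, 8192, 11264, 13312, 14336,
   1801, 2825, 4873, 7945, 8969, 12041, 14089, 15113,
   16384, 32768, 48614, 32230, 25897, 42281, 39119, 22735,
   16696, 33080, 48350, 31966, 25617, 42001, 39415, 23031,
   65536, 69400, 131072, 134936, 262144, 266008, 458752, 462616,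
   321553, 321289, 518161, 517897, 124945, 124681, 190481, 190217,
   524288, 574232, 1048576, 1098520, 904786, 855370, 1429074, 1379658,
   861531, 910915, 1385819, 1435203, 584457, 534545, 1108745, 1058833,
   2097152, 2097947, 2552606, 2551813, 2484330, 2485105, 2300788, 2300015,
   2485001, 2484242, 2299927, 2300684, 2098019, 2097272, 2551933, 2552678,
   4194304, 4195192, 6101317, 6101565, 4531768, 4531520, 5783421, 5782533,
   4531779, 4531515, 5783302, 5782654, 4194427, 4195075, 6101310, 6101574,
   8388608, 10294662, 8585381, 10360099, 8394953, 10292559, 8591468, 10358250,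
   8450917, 10348259, 8647616, 10413638, 8448940, 10354218, 8645385, 10419855,
   16777216, 17183608, 18350245, 18756573, 16792768, 17174456, 18365541, 18747165,
   16831604, 17229580, 18404561, 18802601, 16836788, 17226700, 18409489, 18799465,
   33554432, 35140069, 33954552, 35531549, 33561056, 35137541, 33948440, 35533565,
   33615997, 35176856, 34007685, 35576672, 33614237, 35182712, 34009957, 35570304,
   67108864, 67360864, 69071011, 69085379, 67124713, 67364233, 69061962, 69080362,
   67164012, 67309324, 69019599, 69140399, 67168901, 67318501, 69016102, 69124678,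
   134217728, 135803645, 135987205, 134427384, 136000285, 134414816, 134230808, 135791077,
   134230045, 135791328, 135999512, 134415077, 135987968, 134427133, 134218501, 135803384,
   268435456, 268688248, 270205088, 270064600, 270261111, 270008335, 268491735, 268632239,
   268491631, 268632087, 270261199, 270008503, 270204952, 270064480, 268435640, 268688320,
   140510241, 142414527, 142342778, 140963044, 142342510, 140963824, 140511029, 142414251,
   140523300, 142418362, 142330239, 140959713, 142330475, 140958965, 140522544, 142418606,
   394870784, 395276384, 395466685, 395601885, 395466021, 395601221, 394871448, 395277048,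
   394893431, 395290647, 395481034, 395624362, 395480402, 395623730, 394894063, 395291279]

def rs : List ℕ := [0, 1, 2, 4, 8, 16, 17, 18, 20, 24, 32, 33, 34, 36, 48, 49, 64, 66, 68, 80, 82, 96, 112, 128, 144, 160, 176, 192, 208, 224]

def cs : List ℕ := [0, 1, 2, 4, 8, 16, 17, 18, 20, 24, 32, 33, 34, 36, 48, 49, 64, 66, 68, 80, 82, 96, 112, 128, 144, 160, 176, 192, 208, 224]

def ts : List ℕ :=
  [159677622, 411631617, 837370913, 919076864, 371786785, 186734485, 841024512, 836763681,
   711000096, 578896928, 25141877, 472383489, 132120609, 447300609, 829563429, 828965888,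
   811247478, 478757888, 751305729, 454536222, 453592064, 65012, 382348, 406159,
   1627301, 1586040, 399384, 1976611, 1829086, 377804]

abbrev V : Type := Fin 8 → ZMod 2

def z (b : Bool) : ZMod 2 := if b then 1 else 0

lemma z_xor (a b : Bool) : z (xor a b) = z a + z b := by revert a b; decide

def dec (n : ℕ) : V := fun i => z (n.testBit i)

def enc (x : V) : ℕ := (x 0).val + 2 * (x 1).val + 4 * (x 2).val + 8 * (x 3).val +
  16 * (x 4).val + 32 * (x 5).val + 64 * (x 6).val + 128 * (x 7).val

lemma enc_dec : ∀ n < 256, enc (dec n) = n := by decide +kernel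

lemma dec_enc : ∀ x, dec (enc x) = x ∧ enc x < 256 := by decide +kernel

lemma dec_xor (a b : ℕ) : dec a + dec b = dec (a ^^^ b) := by
  funext i; simp [dec, Nat.testBit_xor, z_xor]

lemma xor_lt {a b : ℕ} (ha : a < 256) (hb : b < 256) : a ^^^ b < 256 :=
  Nat.xor_lt_two_pow (n := 8) ha hb

lemma enc_add (x y : V) : enc (x + y) = enc x ^^^ enc y := by
  conv_lhs => rw [← (dec_enc x).1, ← (dec_enc y).1, dec_xor]
  exact enc_dec _ (xor_lt (dec_enc x).2 (dec_enc y).2)

lemma dot (u x : V) : u ⬝ᵥ x = z (pT.testBit (enc u &&& enc x)) := by
  have h1 : ∀ n < 256, ∑ i, dec n i = z (pT.testBit n) := by decide +kernel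
  have h2 : ∀ a b : Bool, z a * z b = z (a && b) := by decide
  rw [← h1 _ (lt_of_le_of_lt Nat.and_le_left (dec_enc u).2)]
  conv_lhs => rw [← (dec_enc u).1, ← (dec_enc x).1]
  simp [dotProduct, dec, h2, Nat.testBit_and]

def fn (T : ℕ) (x : V) : ZMod 2 := z (T.testBit (enc x))

lemma fn_add (S T : ℕ) : fn S + fn T = fn (S ^^^ T) := by
  funext x; simp [fn, Nat.testBit_xor, z_xor]

def cnt (T u : ℕ) : ℕ → ℕ
  | 0 => 0
  | n + 1 => cnt T u n + cond (xor (T.testBit n) (pT.testBit (u &&& n))) 1 0

lemma cnt_spec (T u n : ℕ) : ∑ k ∈ range n,
    (-1 : ℤ) ^ (z (xor (T.testBit k) (pT.testBit (u &&& k)))).val = n - 2 * cnt T u n := by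
  induction n with
  | zero => simp [cnt]
  | succ n ih =>
    rw [sum_range_succ, ih, cnt]
    cases xor (T.testBit n) (pT.testBit (u &&& n))
    · simp [z]; ring
    · have : (1 : ZMod 2).val = 1 := rfl
      simp [z, this]; ring

lemma bent (T D : ℕ) (h : ∀ u < 256, cnt T u 256 = cond (D.testBit u) 136 120) :
    IsBentDual (fn T) (fn D) := by
  intro u
  have : walsh (fn T) u = ∑ k ∈ range 256,
      (-1 : ℤ) ^ (z (xor (T.testBit k) (pT.testBit (enc u &&& k)))).val := by
    refine sum_bij' (fun x _ => enc x) (fun k _ => dec k) (fun x _ => mem_range.2 (dec_enc x).2)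
      (fun _ _ => mem_univ _) (fun x _ => (dec_enc x).1) (fun k hk => enc_dec k (mem_range.1 hk))
      fun x _ => ?_
    rw [dot, fn, z_xor]
  rw [this, cnt_spec, h _ (dec_enc u).2, fn]
  cases D.testBit (enc u) <;> decide

set_option maxRecDepth 100000 in
lemma b1 : ∀ u < 256, cnt gT u 256 = cond (gD.testBit u) 136 120 := by decide +kernel

set_option maxRecDepth 100000 in
lemma b2 : ∀ u < 256, cnt hT u 256 = cond (hD.testBit u) 136 120 := by decide +kernel

set_option maxRecDepth 100000 in
lemma b3 : ∀ u < 256, cnt (gT ^^^ hT) u 256 = cond ((gD ^^^ hD).testBit u) 136 120 := by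
  decide +kernel

def xs : List ℕ → ℕ → ℕ
  | [], _ => 0
  | q :: l, p => cond (p.testBit 0) q 0 ^^^ xs l (p / 2)

lemma xs_mem (l : List ℕ) (S : Submodule (ZMod 2) (V → ZMod 2)) (h : ∀ q ∈ l, fn q ∈ S) (p : ℕ) :
    fn (xs l p) ∈ S := by
  have h0 : fn 0 = 0 := by funext x; simp [fn, z]
  induction l generalizing p with
  | nil => rw [xs, h0]; exact S.zero_mem
  | cons q l ih =>
    rw [xs, ← fn_add]
    refine S.add_mem ?_ (ih (fun r hr => h r (List.mem_cons_of_mem _ hr)) _)
    cases p.testBit 0
    · rw [cond_false, h0]; exact S.zero_mem
    · exact h q List.mem_cons_self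

def rowOK (b r : ℕ) : Bool := (List.range 256).all fun x =>
  r.testBit x == xor (xor (gT.testBit b) (hT.testBit (x ^^^ b))) ((gT ^^^ hT).testBit x)

set_option maxRecDepth 100000 in
lemma rows : ∀ b < 256, rowOK b (xs qs (ps.getD b 0)) = true := by decide +kernel

lemma rankM : (matM (fn gT) (fn hT)).rank ≤ 29 := by
  rw [Matrix.rank_eq_finrank_span_row]
  classical
  have h1 : Submodule.span (ZMod 2) (Set.range (matM (fn gT) (fn hT)).row) ≤
      Submodule.span (ZMod 2) ((qs.toFinset.image fn : Finset (V → ZMod 2)) : Set (V → ZMod 2)) := by
    rw [Submodule.span_le]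
    rintro _ ⟨b, rfl⟩
    have h2 : (matM (fn gT) (fn hT)).row b = fn (xs qs (ps.getD (enc b) 0)) := by
      funext x
      have h3 := rows _ (dec_enc b).2
      simp only [rowOK, List.all_eq_true, List.mem_range, beq_iff_eq] at h3
      simp only [matM, Matrix.row, Matrix.of_apply, fn_add]
      simp only [fn, h3 _ (dec_enc x).2, z_xor, enc_add]
    rw [h2]
    exact xs_mem _ _ (fun q hq => Submodule.subset_span (by simpa using ⟨q, hq, rfl⟩)) _
  refine (Submodule.finrank_mono h1).trans ((finrank_span_finset_le_card _).trans ?_)
  exact card_image_le.trans ((List.toFinset_card_le _).trans (by decide))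

lemma rankN : 30 ≤ (matN (fn hT)).rank := by
  have hb : ∀ i : Fin 30, rs.getD i 0 < 256 ∧ cs.getD i 0 < 256 := by decide +kernel
  have h1 := (matN (fn hT)).rank_submatrix_le (fun i : Fin 30 => dec (rs.getD i 0))
    (fun i : Fin 30 => dec (cs.getD i 0))
  have h2 : (matN (fn hT)).submatrix (fun i : Fin 30 => dec (rs.getD i 0))
      (fun i : Fin 30 => dec (cs.getD i 0)) =
      Matrix.of fun i j : Fin 30 => z (hT.testBit (rs.getD i 0 ^^^ cs.getD j 0)) := by
    ext i j
    simp only [matN, Matrix.submatrix_apply, Matrix.of_apply, fn, enc_add, enc_dec _ (hb i).1,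
      enc_dec _ (hb j).2]
  have h3 : (Matrix.of fun i j : Fin 30 => z ((ts.getD i 0).testBit j)) *
      (Matrix.of fun i j : Fin 30 => z (hT.testBit (rs.getD i 0 ^^^ cs.getD j 0))) = 1 := by
    decide +kernel
  have h4 := Matrix.rank_mul_le_right (Matrix.of fun i j : Fin 30 => z ((ts.getD i 0).testBit j))
    (Matrix.of fun i j : Fin 30 => z (hT.testBit (rs.getD i 0 ^^^ cs.getD j 0)))
  rw [h3, Matrix.rank_one, Fintype.card_fin] at h4
  rw [h2] at h1
  exact h4.trans h1

theorem result : ∃ m : ℕ, Even m ∧ 0 < m ∧ ∃ g h g' h' : (Fin m → ZMod 2) → ZMod 2,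
    IsBentDual g g' ∧ IsBentDual h h' ∧ IsBentDual (g + h) (g' + h') ∧
      (matM g h).rank ≠ (matN h).rank := by
  refine ⟨8, by decide, by norm_num, fn gT, fn hT, fn gD, fn hD, bent _ _ b1, bent _ _ b2, ?_, ?_⟩
  · rw [fn_add, fn_add]; exact bent _ _ b3
  · have := rankM
    have := rankN
    omega

end Pool.Agent.Results.MP_52c3fe_co.Counter
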